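import Mathlib
import Pool.Agent.W560.HP.Stm

/-! The contact system at generic nodes. -/

set_option autoImplicit false

namespace Pool.Agent.W806.HP

open Finset Polynomial W560.HP
open W560.Sep (dt dt_map dt_congr dt_col exists_adj eq_zero_of_dt)

theorem g_map {A B : Type*} [CommRing A] [CommRing B] (φ : A →+* B) (m : ℕ) (r : ℕ → A) (j : ℕ) :
    (g m r j).map φ = g m (fun i => φ (r i)) j := by
  unfold g
  simp only [Polynomial.map_mul, Polynomial.map_pow, Polynomial.map_add, Polynomial.map_X,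
    Polynomial.map_C]

theorem h_map {A B : Type*} [CommRing A] [CommRing B] (φ : A →+* B) (m : ℕ) (r τ : ℕ → A)
    (j : ℕ) : (h m r τ j).map φ = h m (fun i => φ (r i)) (fun i => φ (τ i)) j := by
  unfold h
  split_ifs <;>
  simp only [Polynomial.map_mul, Polynomial.map_pow, Polynomial.map_add, Polynomial.map_X,
    Polynomial.map_C, map_mul, map_natCast, Polynomial.map_zero, Polynomial.map_natCast]

theorem h_smul {A : Type*} [CommRing A] (m : ℕ) (r τ : ℕ → A) (c : A) (i : ℕ) :
    h m r (fun j => c * τ j) i = C c * h m r τ i := by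
  unfold h
  split_ifs
  all_goals
    simp only [map_mul]
    ring

theorem prop {K : Type*} [Field K] {m q : ℕ} {σ : ℕ → ℕ} {r τ : ℕ → K} (H : Lev m q σ r τ)
    (t : ℕ → K)
    (ht : ∀ l < q, ∑ i ∈ range (q + 1), (g m r (σ i)).coeff l * t i = 0) :
    ∃ lam : K, ∀ i ≤ q, t i = lam * τ (σ i) := by
  set T : K := ∑ i ∈ range (q + 1), (g m r (σ i)).coeff q * τ (σ i) with hT
  have hT0 : T ≠ 0 := by
    intro e
    have := eq_zero_of_dt (q + 1) (fun l i => (g m r (σ i)).coeff l) H.p2 (fun i => τ (σ i)) (by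
      intro i hi
      rcases Nat.lt_or_ge i q with h1 | h1
      · exact H.p1 i h1
      · have : i = q := by omega
        subst this
        exact e) 0 (by omega)
    exact H.p4 0 (by omega) this
  refine ⟨(∑ i ∈ range (q + 1), (g m r (σ i)).coeff q * t i) / T, fun i hi => ?_⟩
  set lam : K := (∑ i ∈ range (q + 1), (g m r (σ i)).coeff q * t i) / T with hlam
  have := eq_zero_of_dt (q + 1) (fun l i => (g m r (σ i)).coeff l) H.p2
    (fun i => t i - lam * τ (σ i)) (by
      intro l hl
      have h1 : ∑ j ∈ range (q + 1), (g m r (σ j)).coeff l * (t j - lam * τ (σ j))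
          = ∑ j ∈ range (q + 1), (g m r (σ j)).coeff l * t j
            - lam * ∑ j ∈ range (q + 1), (g m r (σ j)).coeff l * τ (σ j) := by
        rw [Finset.mul_sum, ← Finset.sum_sub_distrib]
        refine Finset.sum_congr rfl fun j _ => by ring
      rw [h1]
      rcases Nat.lt_or_ge l q with h2 | h2
      · rw [ht l h2, H.p1 l h2]; ring
      · have : l = q := by omega
        subst this
        rw [← hT, hlam]
        field_simp
        ring) i (by omega)
  exact sub_eq_zero.mp this

open Classical in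
/-- extension by zero of a function on the nodes -/
noncomputable def ext0 {A : Type*} [Zero A] (m : ℕ) (σ : ℕ → ℕ) (f : Fin (m + 1) → A) (j : ℕ) :
    A :=
  if h : ∃ p : Fin (m + 1), σ p = j then f h.choose else 0

theorem ext0_of {A : Type*} [Zero A] {m : ℕ} {σ : ℕ → ℕ}
    (hσ : ∀ p ≤ m, ∀ q ≤ m, σ p = σ q → p = q) (f : Fin (m + 1) → A) (p : Fin (m + 1)) :
    ext0 m σ f (σ p) = f p := by
  have h : ∃ q : Fin (m + 1), σ q = σ p := ⟨p, rfl⟩
  unfold ext0
  rw [dif_pos h]
  congr 1
  exact Fin.ext (hσ _ (by have := h.choose.2; omega) _ (by have := p.2; omega) h.choose_spec)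

theorem ext0_not {A : Type*} [Zero A] {m : ℕ} {σ : ℕ → ℕ} (f : Fin (m + 1) → A) (j : ℕ)
    (hj : ∀ i ≤ m, σ i ≠ j) : ext0 m σ f j = 0 := by
  unfold ext0
  rw [dif_neg]
  rintro ⟨p, hp⟩
  exact hj p (by have := p.2; omega) hp

theorem gen : S_GEN := by
  intro k _ _ m σ hm hσ hK
  obtain ⟨K, iK, iA, r, τ, H⟩ := hK
  set R : ℕ → MvPolynomial (Fin (m + 1)) k := ext0 m σ (fun p => MvPolynomial.X p) with hR
  have hRσ : ∀ p : Fin (m + 1), R (σ p) = MvPolynomial.X p := fun p => ext0_of hσ _ p
  let φ : MvPolynomial (Fin (m + 1)) k →+* K :=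
    MvPolynomial.eval₂Hom (algebraMap k K) (fun p : Fin (m + 1) => r (σ p))
  have hφ : (fun j => φ (R j)) = r := by
    funext j
    by_cases hj : ∃ p : Fin (m + 1), σ p = j
    · obtain ⟨p, rfl⟩ := hj
      rw [hRσ]
      simp [φ]
    · have hj' : ∀ i ≤ m, σ i ≠ j := fun i hi e => hj ⟨⟨i, by omega⟩, e⟩
      rw [hR, ext0_not _ _ hj', map_zero, H.r0 j hj']
  have hg : ∀ i l, φ ((g m R i).coeff l) = (g m r i).coeff l := by
    intro i l
    rw [← Polynomial.coeff_map, g_map, hφ]
  obtain ⟨t', ht1, ht2⟩ := exists_adj m (fun l i => (g m R (σ i)).coeff l)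
  set t : ℕ → MvPolynomial (Fin (m + 1)) k := ext0 m σ (fun p => t' p) with ht
  have htσ : ∀ i ≤ m, t (σ i) = t' i := fun i hi => ext0_of hσ (fun p => t' p) ⟨i, by omega⟩
  have h1 : ∀ l < m, ∑ i ∈ range (m + 1), (g m r (σ i)).coeff l * φ (t' i) = 0 := by
    intro l hl
    have := congrArg φ (ht1 l hl)
    rw [map_zero, map_sum] at this
    rw [← this]
    refine Finset.sum_congr rfl fun i _ => ?_
    rw [map_mul, hg]
  have h2 : ∑ i ∈ range (m + 1), (g m r (σ i)).coeff m * φ (t' i)
      = dt (m + 1) (fun l i => (g m r (σ i)).coeff l) := by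
    have := congrArg φ ht2
    rw [map_sum, dt_map] at this
    simp only [hg, map_mul] at this
    exact this
  obtain ⟨lam, hlam⟩ := prop H (fun i => φ (t' i)) h1
  have hlam0 : lam ≠ 0 := by
    intro e
    apply H.p2
    rw [← h2]
    refine Finset.sum_eq_zero fun i hi => ?_
    have hi' := Finset.mem_range.mp hi
    have := hlam i (by omega)
    change φ (t' i) = lam * τ (σ i) at this
    rw [this, e, zero_mul, mul_zero]
  have hφt : (fun j => φ (t j)) = fun j => lam * τ j := by
    funext j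
    by_cases hj : ∃ p : Fin (m + 1), σ p = j
    · obtain ⟨p, rfl⟩ := hj
      rw [htσ p (by have := p.2; omega)]
      exact hlam p (by have := p.2; omega)
    · have hj' : ∀ i ≤ m, σ i ≠ j := fun i hi e => hj ⟨⟨i, by omega⟩, e⟩
      rw [ht, ext0_not _ _ hj', map_zero, H.t0 j hj', mul_zero]
  refine ⟨R, t, hRσ, ⟨?_, ?_, ?_, ?_, ?_, ?_⟩⟩
  · exact fun j hj => ext0_not _ _ hj
  · exact fun j hj => ext0_not _ _ hj
  · intro l hl
    rw [← ht1 l hl]
    refine Finset.sum_congr rfl fun i hi => ?_
    have hi' := Finset.mem_range.mp hi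
    rw [htσ i (by omega)]
  · intro e
    have := congrArg φ e
    rw [map_zero, dt_map] at this
    simp only [hg] at this
    exact H.p2 this
  · intro e
    have := congrArg φ e
    rw [map_zero, dt_map] at this
    have h3 : (fun l i => φ ((h m R t (σ i)).coeff l)) =
        fun l i => lam * (h m r τ (σ i)).coeff l := by
      funext l i
      rw [← Polynomial.coeff_map, h_map, hφ, hφt, h_smul, coeff_C_mul]
    rw [h3, dt_col (m + 1) (fun _ => lam)] at this
    rcases mul_eq_zero.mp this with h3 | h3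
    · rw [Finset.prod_const] at h3
      exact pow_ne_zero _ hlam0 h3
    · exact H.p3 h3
  · intro i hi e
    have : φ (t (σ i)) = lam * τ (σ i) := congrFun hφt (σ i)
    rw [e, map_zero] at this
    exact mul_ne_zero hlam0 (H.p4 i hi) this.symm

end Pool.Agent.W806.HP
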